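import Mathlib

set_option autoImplicit false
set_option linter.unusedSectionVars false

/-!
# MP_98dabe_lc: maximal chains of `Π(κ)` of cardinality less than `cf κ`

For every strong limit cardinal `μ` (for example `μ = ℵ₀`) and `κ = 2 ^ μ` the partition lattice of
a set of cardinality `κ` has a maximal chain of cardinality at most `μ`, and `μ < cf κ` by König's
theorem.  In particular the partition lattice of a set of size continuum has a countable maximal
chain.

Identify the set with the set of branches of the binary tree of height `μ`, and list the nodes of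
the tree level by level.  The chain consists of the partitions obtained by splitting the cones
above the nodes, one after the other.
-/

open Cardinal Set Order

universe u

namespace Pool.Agent.Results.MP_98dabe_lc.SmallMaximalChains

section Construction

variable {J : Type u} [LinearOrder J] [WellFoundedLT J] {X : Type u} (φ : X ≃ (J → Bool))

/-- The nodes of the binary tree: functions defined on a proper initial segment of `J`. -/
def Node (J : Type u) [LinearOrder J] : Type u := Σ i : J, (Iio i → Bool)

/-- an injection used to list the nodes level by level -/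
noncomputable def code (t : Node J) : J ×ₗ Cardinal.{u} := toLex (t.1, embeddingToCardinal t)

theorem code_injective : Function.Injective (code (J := J)) := by
  intro s t h
  have h' : (s.1, embeddingToCardinal s) = (t.1, embeddingToCardinal t) := toLex.injective h
  exact embeddingToCardinal.injective (Prod.ext_iff.1 h').2

noncomputable instance : LinearOrder (Node J) := LinearOrder.lift' code code_injective

instance : WellFoundedLT (Node J) :=
  ⟨InvImage.wf (code (J := J)) (wellFounded_lt (α := J ×ₗ Cardinal.{u}))⟩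

theorem lt_of_level {s t : Node J} (h : s.1 < t.1) : s < t := by
  show code s < code t
  exact Prod.Lex.toLex_lt_toLex.2 (Or.inl h)

/-- the branches `x`, `y` split at the node `t` -/
def Split (x y : J → Bool) (t : Node J) : Prop :=
  (∀ j : Iio t.1, x j = t.2 j ∧ y j = t.2 j) ∧ x t.1 ≠ y t.1

theorem Split.symm {x y : J → Bool} {t : Node J} (h : Split x y t) : Split y x t :=
  ⟨fun j => ⟨(h.1 j).2, (h.1 j).1⟩, h.2.symm⟩

theorem exists_split {x y : J → Bool} (h : x ≠ y) : ∃ t, Split x y t := by
  have hne : {i | x i ≠ y i}.Nonempty := by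
    by_contra hcon
    rw [Set.not_nonempty_iff_eq_empty] at hcon
    apply h
    funext i
    by_contra hi
    have : i ∈ {i | x i ≠ y i} := hi
    rw [hcon] at this
    exact this
  let i := wellFounded_lt.min {i | x i ≠ y i} hne
  have hi : x i ≠ y i := wellFounded_lt.min_mem {i | x i ≠ y i} hne
  refine ⟨⟨i, fun j => x j⟩, ?_, hi⟩
  intro j
  refine ⟨rfl, ?_⟩
  by_contra hj
  exact wellFounded_lt.not_lt_min {i | x i ≠ y i} (show x j ≠ y j from fun h => hj h.symm) j.2

/-- If `x`, `z` split at `t`, then `x`, `y` or `y`, `z` split at a node `≤ t`. -/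
theorem split_trans {x y z : J → Bool} {t : Node J} (h : Split x z t) :
    ∃ s, s ≤ t ∧ (Split x y s ∨ Split y z s) := by
  by_cases hy : ∀ j : Iio t.1, y j = t.2 j
  · refine ⟨t, le_rfl, ?_⟩
    by_cases hxy : x t.1 = y t.1
    · right
      exact ⟨fun j => ⟨hy j, (h.1 j).2⟩, by rw [← hxy]; exact h.2⟩
    · left
      exact ⟨fun j => ⟨(h.1 j).1, hy j⟩, hxy⟩
  · push Not at hy
    obtain ⟨j, hj⟩ := hy
    have hxy : x ≠ y := by
      rintro rfl
      exact hj (h.1 j).1
    obtain ⟨s, hs⟩ := exists_split hxy
    refine ⟨s, ?_, Or.inl hs⟩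
    refine (lt_of_level ?_).le
    by_contra hcon
    push Not at hcon
    have h1 := hs.1 ⟨j, lt_of_lt_of_le j.2 hcon⟩
    exact hj (by rw [← (h.1 j).1, h1.1, h1.2])

/-- The partition in which the cones above the nodes of the initial segment `D` are split. -/
def part (D : Set (Node J)) (hD : IsLowerSet D) : Setoid X where
  r x y := ∀ t ∈ D, ¬ Split (φ x) (φ y) t
  iseqv :=
    { refl := fun x t _ h => h.2 rfl
      symm := fun h t ht h' => h t ht h'.symm
      trans := by
        intro x y z hxy hyz t ht h
        obtain ⟨s, hst, hs | hs⟩ := split_trans (y := φ y) h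
        · exact hxy s (hD hst ht) hs
        · exact hyz s (hD hst ht) hs }

theorem part_rel {D : Set (Node J)} {hD : IsLowerSet D} {x y : X} :
    (part φ D hD) x y ↔ ∀ t ∈ D, ¬ Split (φ x) (φ y) t := Iff.rfl

theorem part_anti {D E : Set (Node J)} {hD : IsLowerSet D} {hE : IsLowerSet E} (h : D ⊆ E) :
    part φ E hE ≤ part φ D hD := fun _ _ hxy t ht => hxy t (h ht)

/-- The chain. -/
def chain : Set (Setoid X) := {P | ∃ (D : Set (Node J)) (hD : IsLowerSet D), P = part φ D hD}

theorem isChain_chain : IsChain (· ≤ ·) (chain φ) := by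
  rintro _ ⟨D, hD, rfl⟩ _ ⟨E, hE, rfl⟩ -
  rcases hD.total hE with h | h
  · exact Or.inr (part_anti φ h)
  · exact Or.inl (part_anti φ h)

theorem isMaxChain_chain : IsMaxChain (· ≤ ·) (chain φ) := by
  refine ⟨isChain_chain φ, ?_⟩
  intro 𝒟 h𝒟 hsub
  refine subset_antisymm hsub ?_
  intro R hR
  have hcomp : ∀ P ∈ chain φ, R ≤ P ∨ P ≤ R := by
    intro P hP
    by_cases h : R = P
    · exact Or.inl h.le
    · exact h𝒟 hR (hsub hP) h
  let D : Set (Node J) := {t | R ≤ part φ (Iic t) (isLowerSet_Iic t)}
  have hD : IsLowerSet D := by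
    intro s t hts hs
    exact le_trans hs (part_anti φ (Iic_subset_Iic.2 hts))
  have hRD : R ≤ part φ D hD := by
    intro x y hxy t ht
    exact (ht hxy) t (mem_Iic.2 le_rfl)
  by_cases hne : (Dᶜ).Nonempty
  · let t := wellFounded_lt.min Dᶜ hne
    have ht : t ∉ D := wellFounded_lt.min_mem Dᶜ hne
    have hlt : ∀ s, s < t → s ∈ D := by
      intro s hs
      by_contra hcon
      exact wellFounded_lt.not_lt_min Dᶜ hcon hs
    have hge : part φ (Iic t) (isLowerSet_Iic t) ≤ R :=
      (hcomp _ ⟨_, _, rfl⟩).resolve_left ht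
    -- a pair in `R` which splits at `t`
    obtain ⟨x, y, hxy, hst⟩ : ∃ x y, R x y ∧ Split (φ x) (φ y) t := by
      by_contra hcon
      push Not at hcon
      apply ht
      intro x y hxy s hs
      rcases (mem_Iic.1 hs).lt_or_eq with h | rfl
      · exact hRD hxy s (hlt s h)
      · exact hcon x y hxy
    refine ⟨D, hD, le_antisymm hRD ?_⟩
    intro u v huv
    by_cases hsp : Split (φ u) (φ v) t
    · -- both are equivalent to `x` or to `y`
      have hkey : ∀ w : X, (∀ j : Iio t.1, φ w j = t.2 j) → R w x := by
        intro w hw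
        have haux : ∀ z : X, (∀ j : Iio t.1, φ z j = t.2 j) → φ z t.1 = φ w t.1 → R w z := by
          intro z hz hzw
          apply hge
          intro s hs hsp'
          rcases lt_trichotomy s.1 t.1 with h | h | h
          · apply hsp'.2
            rw [hw ⟨s.1, h⟩, hz ⟨s.1, h⟩]
          · apply hsp'.2
            rw [h, hzw]
          · exact absurd (lt_of_level h) (not_lt.2 (mem_Iic.1 hs))
        by_cases h : φ x t.1 = φ w t.1
        · exact haux x (fun j => (hst.1 j).1) h
        · have h' : φ y t.1 = φ w t.1 := by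
            have h1 := hst.2
            revert h h1
            cases φ x t.1 <;> cases φ y t.1 <;> cases φ w t.1 <;> simp
          exact R.trans' (haux y (fun j => (hst.1 j).2) h') (R.symm' hxy)
      exact R.trans' (hkey u (fun j => (hsp.1 j).1)) (R.symm' (hkey v (fun j => (hsp.1 j).2)))
    · apply hge
      intro s hs
      rcases (mem_Iic.1 hs).lt_or_eq with h | rfl
      · exact huv s (hlt s h)
      · exact hsp
  · rw [Set.not_nonempty_iff_eq_empty, Set.compl_empty_iff] at hne
    refine ⟨D, hD, le_antisymm hRD ?_⟩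
    intro x y hxy
    have : φ x = φ y := by
      by_contra hcon
      obtain ⟨t, ht⟩ := exists_split hcon
      exact hxy t (by rw [hne]; trivial) ht
    rw [φ.injective this]

theorem mk_chain_le : #(chain φ) ≤ #(Option (Node J)) := by
  classical
  have hD : ∀ D : Set (Node J), IsLowerSet D → D = Set.univ ∨ ∃ t, D = Iio t := by
    intro D hD
    by_cases hne : (Dᶜ).Nonempty
    · right
      refine ⟨wellFounded_lt.min Dᶜ hne, ?_⟩
      ext s
      constructor
      · intro hs
        by_contra hcon
        rw [mem_Iio, not_lt] at hcon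
        exact wellFounded_lt.min_mem Dᶜ hne (hD hcon hs)
      · intro hs
        by_contra hcon
        exact wellFounded_lt.not_lt_min Dᶜ hcon hs
    · left
      rwa [Set.not_nonempty_iff_eq_empty, Set.compl_empty_iff] at hne
  let f : Option (Node J) → chain φ := fun o => match o with
    | none => ⟨part φ Set.univ isLowerSet_univ, ⟨_, _, rfl⟩⟩
    | some t => ⟨part φ (Iio t) (isLowerSet_Iio t), ⟨_, _, rfl⟩⟩
  apply mk_le_of_surjective (f := f)
  rintro ⟨_, D, hD', rfl⟩
  rcases hD D hD' with h | ⟨t, h⟩
  · subst h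
    exact ⟨none, rfl⟩
  · subst h
    exact ⟨some t, rfl⟩

end Construction

theorem mk_node_le {μ : Cardinal.{u}} (hμ : μ.IsStrongLimit) : #(Node μ.ord.ToType) ≤ μ := by
  have h : #(Node μ.ord.ToType) = sum fun i : μ.ord.ToType => #(Iio i → Bool) := mk_sigma _
  rw [h]
  have hle : ∀ i : μ.ord.ToType, #(Iio i → Bool) ≤ μ := by
    intro i
    have h1 : #(Iio i) < μ := by
      have := mk_Iio_toType_ord_lt i
      exact this
    have h2 : #(Iio i → Bool) = 2 ^ #(Iio i) := by simp
    rw [h2]
    exact (hμ.isStrongPrelimit h1).le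
  refine (sum_le_sum _ (fun _ => μ) hle).trans ?_
  rw [sum_const']
  rw [mk_ord_toType]
  exact (mul_eq_self hμ.aleph0_le).le

/-- For every strong limit cardinal `μ`, every set `X` of cardinality `κ = 2 ^ μ` has a maximal chain
of partitions of cardinality at most `μ`, and `μ` is less than the cofinality of `κ`. In particular
(`μ = ℵ₀`, first part) a set of size continuum has a countable maximal chain of partitions, and the
continuum has uncountable cofinality. -/
theorem result :
    (ℵ₀ < (𝔠 : Cardinal.{u}).ord.cof ∧ ∀ X : Type u, #X = 𝔠 →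
      ∃ C : Set (Setoid X), IsMaxChain (· ≤ ·) C ∧ #C ≤ ℵ₀) ∧
    ∀ μ : Cardinal.{u}, μ.IsStrongLimit →
      μ < ((2 : Cardinal.{u}) ^ μ).ord.cof ∧ ∀ X : Type u, #X = 2 ^ μ →
        ∃ C : Set (Setoid X), IsMaxChain (· ≤ ·) C ∧ #C ≤ μ := by
  have main : ∀ μ : Cardinal.{u}, μ.IsStrongLimit →
      μ < ((2 : Cardinal.{u}) ^ μ).ord.cof ∧ ∀ X : Type u, #X = 2 ^ μ →
        ∃ C : Set (Setoid X), IsMaxChain (· ≤ ·) C ∧ #C ≤ μ := by
    intro μ hμ
    refine ⟨lt_cof_ord_power hμ.aleph0_le one_lt_two, ?_⟩
    intro X hX
    have h1 : #X = #(μ.ord.ToType → Bool) := by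
      rw [hX]; simp
    obtain ⟨φ⟩ := Cardinal.eq.1 h1
    refine ⟨chain φ, isMaxChain_chain φ, (mk_chain_le φ).trans ?_⟩
    rw [mk_option]
    calc #(Node μ.ord.ToType) + 1 ≤ μ + μ :=
          add_le_add (mk_node_le hμ) ((one_le_aleph0).trans hμ.aleph0_le)
      _ = μ := add_eq_self hμ.aleph0_le
  refine ⟨?_, main⟩
  have := main ℵ₀ isStrongLimit_aleph0
  rwa [two_power_aleph0] at this

end Pool.Agent.Results.MP_98dabe_lc.SmallMaximalChains
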